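import Pool.Agent.MP_887f27_pr.H69.Spec

/-! Selection of a good environment by mass transport and the inequality of Markov. -/

namespace Pool.Agent.MP_887f27_pr.H16

open MeasureTheory ProbabilityTheory Set
open scoped ENNReal NNReal
open Pool.Agent.MP_887f27_pr.H69

lemma lintegral_sz {α : Type} [MeasurableSpace α] (μ : Measure α) {A : α → Set V}
    (hA : ∀ y, MeasurableSet {x | y ∈ A x}) : ∫⁻ x, sz (A x) ∂μ = ∑' y, μ {x | y ∈ A x} := by
  have h : ∀ y x, (A x).indicator (1 : V → ℝ≥0∞) y = {x | y ∈ A x}.indicator 1 x := by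
    intro y x
    by_cases hy : y ∈ A x
    · rw [indicator_of_mem hy, indicator_of_mem (show x ∈ {x | y ∈ A x} from hy)]; rfl
    · rw [indicator_of_notMem hy, indicator_of_notMem (show x ∉ {x | y ∈ A x} from hy)]
  unfold sz
  simp_rw [h]
  rw [lintegral_tsum fun y => (measurable_one.indicator (hA y)).aemeasurable]
  exact tsum_congr fun y => lintegral_indicator_one (hA y)

lemma ms_tri {α : Type} [MeasurableSpace α] {U : α → Set V}
    (hU : ∀ y, MeasurableSet {x | y ∈ U x}) (r l : ℕ) (y : V) :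
    MeasurableSet {x | Three fun d => ∃ e, Desc r (y, d) e ∧ Path (U x) l e.1 e.2} :=
  ms_three fun _ => measurableSet_setOfPred.2 (Measurable.exists fun e =>
    measurable_const.and (measurableSet_setOfPred.1 (ms_path hU l e.1 e.2)))

/-- The deterministic bound for the number of trifurcations. -/
lemma trif_count (hc : CountStmt) {K : Cfg → Set V} (hK : ∀ y, MeasurableSet {b | y ∈ K b})
    (h : V) (k r l : ℕ) :
    (l : ℝ≥0∞) * sz {y | Trif K h y k r l} ≤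
      6 * 5 ^ (r + 1) * ((k : ℝ≥0∞) + 1) ^ 3 * ∑' w, pi0 {b | w ∈ F K h b} := by
  let P3 : Measure (Cfg × Cfg × Cfg) := pi0.prod (pi0.prod pi0)
  let U : Cfg × Cfg × Cfg → Set V := fun β => F K h β.1 ∪ (F K h β.2.1 ∪ F K h β.2.2)
  have hF := ms_F hK h
  have hU : ∀ y, MeasurableSet {β | y ∈ U β} := fun y =>
    ((hF y).preimage measurable_fst).union
      (((hF y).preimage measurable_snd.fst).union ((hF y).preimage measurable_snd.snd))
  let S : Cfg × Cfg × Cfg → Set V :=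
    fun β => {y | Three fun d => ∃ e, Desc r (y, d) e ∧ Path (U β) l e.1 e.2}
  have hS : ∀ y, MeasurableSet {β | y ∈ S β} := fun y => ms_tri hU r l y
  set κ : ℝ≥0∞ := (k : ℝ≥0∞) + 1 with hκ
  have hκ0 : κ ≠ 0 := by simp [hκ]
  have hκt : κ ≠ ⊤ := by simp [hκ]
  have h1 : κ⁻¹ ^ 3 * sz {y | Trif K h y k r l} ≤ ∑' y, P3 {β | y ∈ S β} := by
    unfold sz
    rw [← ENNReal.tsum_mul_left]
    refine ENNReal.tsum_le_tsum fun y => ?_
    by_cases hy : y ∈ {y | Trif K h y k r l}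
    · rw [indicator_of_mem hy, Pi.one_apply, mul_one]
      obtain ⟨a, b, c, hab, hac, hbc, ⟨e1, d1, p1⟩, ⟨e2, d2, p2⟩, ⟨e3, d3, p3⟩⟩ := hy
      have hsub : {b | Path (F K h b) l e1.1 e1.2} ×ˢ ({b | Path (F K h b) l e2.1 e2.2} ×ˢ
          {b | Path (F K h b) l e3.1 e3.2}) ⊆ {β | y ∈ S β} := by
        rintro β ⟨q1, q2, q3⟩
        exact ⟨a, b, c, hab, hac, hbc, ⟨e1, d1, Path.mono_set subset_union_left q1⟩,
          ⟨e2, d2, Path.mono_set (subset_union_left.trans subset_union_right) q2⟩,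
          ⟨e3, d3, Path.mono_set (subset_union_right.trans subset_union_right) q3⟩⟩
      refine le_trans ?_ (measure_mono hsub)
      rw [Measure.prod_prod, Measure.prod_prod, pow_three]
      exact mul_le_mul' p1 (mul_le_mul' p2 p3)
    · rw [indicator_of_notMem hy, mul_zero]; exact zero_le
  have h2 : ∑' w, P3 {β | w ∈ U β} ≤ 3 * ∑' w, pi0 {b | w ∈ F K h b} := by
    rw [← ENNReal.tsum_mul_left]
    refine ENNReal.tsum_le_tsum fun w => ?_
    have e1 : P3 {β | w ∈ F K h β.1} ≤ pi0 {b | w ∈ F K h b} :=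
      (measurePreserving_fst (μ := pi0) (ν := pi0.prod pi0)).measure_preimage_le _
    have e2 : P3 {β | w ∈ F K h β.2.1} ≤ pi0 {b | w ∈ F K h b} :=
      ((measurePreserving_fst (μ := pi0) (ν := pi0)).comp
        (measurePreserving_snd (μ := pi0) (ν := pi0.prod pi0))).measure_preimage_le _
    have e3 : P3 {β | w ∈ F K h β.2.2} ≤ pi0 {b | w ∈ F K h b} :=
      ((measurePreserving_snd (μ := pi0) (ν := pi0)).comp
        (measurePreserving_snd (μ := pi0) (ν := pi0.prod pi0))).measure_preimage_le _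
    calc P3 {β | w ∈ U β}
        ≤ P3 {β | w ∈ F K h β.1} + (P3 {β | w ∈ F K h β.2.1} + P3 {β | w ∈ F K h β.2.2}) :=
          (measure_union_le _ _).trans (add_le_add le_rfl (measure_union_le _ _))
      _ ≤ pi0 {b | w ∈ F K h b} + (pi0 {b | w ∈ F K h b} + pi0 {b | w ∈ F K h b}) :=
          add_le_add e1 (add_le_add e2 e3)
      _ = 3 * pi0 {b | w ∈ F K h b} := by ring
  have h3 : (l : ℝ≥0∞) * ∑' y, P3 {β | y ∈ S β} ≤ 2 * 5 ^ (r + 1) * ∑' w, P3 {β | w ∈ U β} := by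
    rw [← lintegral_sz P3 hS, ← lintegral_sz P3 hU,
      ← lintegral_const_mul' _ _ (ENNReal.natCast_ne_top l),
      ← lintegral_const_mul' _ _ (by finiteness)]
    exact lintegral_mono fun β => hc r l (U β)
  have h4 : κ ^ 3 * κ⁻¹ ^ 3 = 1 := by
    rw [← mul_pow, ENNReal.mul_inv_cancel hκ0 hκt, one_pow]
  calc (l : ℝ≥0∞) * sz {y | Trif K h y k r l}
      = κ ^ 3 * (l * (κ⁻¹ ^ 3 * sz {y | Trif K h y k r l})) := by
        rw [mul_left_comm, ← mul_assoc (κ ^ 3), h4, one_mul]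
    _ ≤ κ ^ 3 * (2 * 5 ^ (r + 1) * (3 * ∑' w, pi0 {b | w ∈ F K h b})) := by
        refine mul_le_mul' le_rfl ?_
        calc (l : ℝ≥0∞) * (κ⁻¹ ^ 3 * sz {y | Trif K h y k r l})
            ≤ l * ∑' y, P3 {β | y ∈ S β} := by gcongr
          _ ≤ 2 * 5 ^ (r + 1) * ∑' w, P3 {β | w ∈ U β} := h3
          _ ≤ _ := by gcongr
    _ = _ := by ring

lemma markov {α : Type} [MeasurableSpace α] (μ : Measure α) {f : α → ℝ≥0∞} (hf : Measurable f)
    {B a ε : ℝ≥0∞} (hB : ∫⁻ x, f x ∂μ ≤ B) (ha : a ≠ 0) (ha' : a ≠ ⊤) (h : B ≤ a * ε) :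
    μ {x | a ≤ f x} ≤ ε :=
  (ENNReal.mul_le_mul_iff_right ha ha').1 ((mul_meas_ge_le_lintegral hf a).trans (hB.trans h))

section Equi

variable {K : Om → Cfg → Set V}

lemma F_sh (hE : ∀ u ω b y, y ∈ K (shO u ω) (sh u b) ↔ u * y ∈ K ω b) (u : V) (ω : Om) (h : V)
    (b : Cfg) (y : V) : y ∈ F (K (shO u ω)) h (sh u b) ↔ u * y ∈ F (K ω) (u * h) b := by
  unfold F
  rw [mem_sdiff, mem_sdiff, ← sh_update, ← sh_update, hE, hE]

lemma ms_FF (hK : ∀ y, MeasurableSet {p : Om × Cfg | y ∈ K p.1 p.2}) (h y : V) :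
    MeasurableSet {p : Om × Cfg | y ∈ F (K p.1) h p.2} :=
  MeasurableSet.diff
    ((hK y).preimage (f := fun p : Om × Cfg => (p.1, Function.update p.2 h false))
      (measurable_fst.prodMk (measurable_update_left.comp measurable_snd)))
    ((hK y).preimage (f := fun p : Om × Cfg => (p.1, Function.update p.2 h true))
      (measurable_fst.prodMk (measurable_update_left.comp measurable_snd)))

lemma trif_sh (hE : ∀ u ω b y, y ∈ K (shO u ω) (sh u b) ↔ u * y ∈ K ω b) (u : V) (ω : Om)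
    {h y : V} {k r l : ℕ} (ht : Trif (K ω) (u * h) (u * y) k r l) :
    Trif (K (shO u ω)) h y k r l := by
  refine Three.mono ht ?_
  rintro d ⟨e, he, hp⟩
  refine ⟨(u⁻¹ * e.1, e.2), by simpa using he.shift u⁻¹, hp.trans ?_⟩
  refine le_trans (le_of_eq ?_) ((inv_nu (1 / 2) u).measure_preimage_le _)
  congr 1
  ext b
  simp only [mem_ofPred_eq, mem_preimage]
  rw [path_equiv (F_sh hE u ω h b), mul_inv_cancel_left]

lemma ms_trif (hK : ∀ y, MeasurableSet {p : Om × Cfg | y ∈ K p.1 p.2}) (h y : V) (k r l : ℕ) :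
    MeasurableSet {ω | Trif (K ω) h y k r l} :=
  ms_three fun _ => measurableSet_setOfPred.2 (Measurable.exists fun e =>
    measurable_const.and (measurableSet_setOfPred.1 (measurableSet_le measurable_const
      (measurable_measure_prodMk_left (ν := pi0)
        (ms_path (U := fun p : Om × Cfg => F (K p.1) h p.2) (ms_FF hK h) l e.1 e.2)))))

variable {Q : Measure Om} [IsProbabilityMeasure Q]

lemma move_one (hQ : ∀ u, MeasurePreserving (shO u) Q Q)
    (hE : ∀ u ω b y, y ∈ K (shO u ω) (sh u b) ↔ u * y ∈ K ω b) (y : V) :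
    (Q.prod pi0) {p | y ∈ K p.1 p.2} ≤ (Q.prod pi0) {p | 1 ∈ K p.1 p.2} := by
  refine le_trans (le_of_eq ?_) (((hQ y).prod (inv_nu (1 / 2) y)).measure_preimage_le _)
  congr 1
  ext p
  simp only [mem_ofPred_eq, mem_preimage, Prod.map_fst, Prod.map_snd]
  rw [hE, mul_one]

lemma move_F (hQ : ∀ u, MeasurePreserving (shO u) Q Q)
    (hE : ∀ u ω b y, y ∈ K (shO u ω) (sh u b) ↔ u * y ∈ K ω b) (h y : V) :
    (Q.prod pi0) {p | y ∈ F (K p.1) h p.2} ≤ (Q.prod pi0) {p | 1 ∈ F (K p.1) (y⁻¹ * h) p.2} := by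
  refine le_trans (le_of_eq ?_) (((hQ y).prod (inv_nu (1 / 2) y)).measure_preimage_le _)
  congr 1
  ext p
  simp only [mem_ofPred_eq, mem_preimage, Prod.map_fst, Prod.map_snd]
  rw [F_sh hE, mul_one, mul_inv_cancel_left]

/-- Mass transport for the trifurcations. -/
lemma trif_prob (hc : CountStmt) (hQ : ∀ u, MeasurePreserving (shO u) Q Q)
    (hK : ∀ y, MeasurableSet {p : Om × Cfg | y ∈ K p.1 p.2})
    (hE : ∀ u ω b y, y ∈ K (shO u ω) (sh u b) ↔ u * y ∈ K ω b) {M : ℝ≥0∞}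
    (hM : ∑' h : V, (Q.prod pi0) {p | 1 ∈ F (K p.1) h p.2} ≤ M) (y : V) (k r l : ℕ) :
    (l : ℝ≥0∞) * Q {ω | ∃ h, Trif (K ω) h y k r l} ≤
      6 * 5 ^ (r + 1) * ((k : ℝ≥0∞) + 1) ^ 3 * M := by
  have h1 : Q {ω | ∃ h, Trif (K ω) h y k r l} ≤ ∑' z, Q {ω | Trif (K ω) 1 z k r l} := by
    rw [ofPred_exists]
    refine (measure_iUnion_le _).trans ?_
    rw [← ((Equiv.inv V).trans (Equiv.mulRight y)).tsum_eq
      fun z => Q {ω | Trif (K ω) 1 z k r l}]
    refine ENNReal.tsum_le_tsum fun h => ?_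
    refine le_trans (measure_mono ?_) ((hQ h).measure_preimage_le _)
    intro ω hω
    refine trif_sh hE h ω ?_
    simpa using hω
  have h2 : ∑' w, (Q.prod pi0) {p | w ∈ F (K p.1) 1 p.2} ≤ M := by
    refine le_trans ?_ hM
    rw [← (Equiv.inv V).tsum_eq fun h => (Q.prod pi0) {p | 1 ∈ F (K p.1) h p.2}]
    refine ENNReal.tsum_le_tsum fun w => ?_
    simpa using move_F hQ hE 1 w
  have h3 : ∑' w, (Q.prod pi0) {p | w ∈ F (K p.1) 1 p.2} =
      ∫⁻ ω, ∑' w, pi0 {b | w ∈ F (K ω) 1 b} ∂Q := by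
    have hm : ∀ w, Measurable fun ω => pi0 {b | w ∈ F (K ω) 1 b} := fun w =>
      measurable_measure_prodMk_left (ν := pi0) (ms_FF hK 1 w)
    rw [lintegral_tsum fun w => (hm w).aemeasurable]
    exact tsum_congr fun w => Measure.prod_apply (ms_FF hK 1 w)
  calc (l : ℝ≥0∞) * Q {ω | ∃ h, Trif (K ω) h y k r l}
      ≤ l * ∫⁻ ω, sz {z | Trif (K ω) 1 z k r l} ∂Q := by
        rw [lintegral_sz Q (A := fun ω => {z | Trif (K ω) 1 z k r l})
          fun z => ms_trif hK 1 z k r l]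
        gcongr
        exact h1
    _ ≤ 6 * 5 ^ (r + 1) * ((k : ℝ≥0∞) + 1) ^ 3 * ∫⁻ ω, ∑' w, pi0 {b | w ∈ F (K ω) 1 b} ∂Q := by
        rw [← lintegral_const_mul' _ _ (ENNReal.natCast_ne_top l),
          ← lintegral_const_mul' _ _ (by finiteness)]
        exact lintegral_mono fun ω =>
          trif_count hc (fun z => (hK z).preimage measurable_prodMk_left) 1 k r l
    _ ≤ _ := by
        rw [← h3]
        gcongr

lemma half_le (hK : MeasurableSet {p : Om × Cfg | 1 ∈ K p.1 p.2}) {c : ℝ≥0∞}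
    (hc : c ≤ (Q.prod pi0) {p | 1 ∈ K p.1 p.2}) :
    c / 2 ≤ Q {ω | c / 2 ≤ pi0 {b | 1 ∈ K ω b}} := by
  have hct : c ≠ ⊤ := ne_top_of_le_ne_top (measure_ne_top _ _) hc
  have hm : Measurable fun ω => pi0 {b | 1 ∈ K ω b} := measurable_measure_prodMk_left hK
  have hG : MeasurableSet {ω | c / 2 ≤ pi0 {b | 1 ∈ K ω b}} := measurableSet_le measurable_const hm
  have h1 : c ≤ c / 2 + Q {ω | c / 2 ≤ pi0 {b | 1 ∈ K ω b}} := by
    refine hc.trans ?_
    rw [Measure.prod_apply hK, ← lintegral_indicator_one hG]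
    have e : c / 2 = ∫⁻ _, c / 2 ∂Q := by simp
    conv_rhs => rw [e]
    rw [← lintegral_add_left measurable_const]
    refine lintegral_mono fun ω => ?_
    by_cases hω : ω ∈ {ω | c / 2 ≤ pi0 {b | 1 ∈ K ω b}}
    · simp only [← e]
      rw [indicator_of_mem hω]
      exact prob_le_one.trans le_add_self
    · simp only [← e]
      rw [indicator_of_notMem hω, add_zero]
      exact (not_le.1 hω).le
  have h2 : c / 2 ≠ ⊤ := ENNReal.div_ne_top hct two_ne_zero
  rw [← ENNReal.add_le_add_iff_left h2, ENNReal.add_halves]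
  exact h1

end Equi

theorem select : SelectStmt := by
  intro hc c M hc0 hM
  have hc2 : c / 2 ≠ 0 := (ENNReal.half_pos hc0).ne'
  obtain ⟨ε, hε, hsum⟩ := ENNReal.exists_pos_sum_of_countable hc2 (V ⊕ V ⊕ (V × ℕ × ℕ))
  have hε0 : ∀ i, (ε i : ℝ≥0∞) ≠ 0 := fun i => by exact_mod_cast (hε i).ne'
  have hl : ∀ (y : V) (k r : ℕ), ∃ l : ℕ, 6 * 5 ^ (r + 1) * ((k : ℝ≥0∞) + 1) ^ 3 * M /
      ε (Sum.inr (Sum.inr (y, k, r))) < l := fun y k r =>
    ENNReal.exists_nat_gt (ENNReal.div_ne_top (by finiteness) (hε0 _))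
  choose l hl using hl
  refine ⟨fun y => M / ε (Sum.inl y) + 1, fun y => (ε (Sum.inr (Sum.inl y)) : ℝ≥0∞)⁻¹, l,
    fun y => ENNReal.add_ne_top.2 ⟨ENNReal.div_ne_top hM (hε0 _), ENNReal.one_ne_top⟩,
    fun y => ENNReal.inv_ne_top.2 (hε0 _), ?_⟩
  intro Q _ K Err τ hτ0 hτt hQ hK hErr hE hE' hcK hMK hτ
  let bad : V ⊕ V ⊕ (V × ℕ × ℕ) → Set Om := fun i =>
    match i with
    | Sum.inl y => {ω | M / ε (Sum.inl y) + 1 ≤ ∑' h : V, pi0 {b | y ∈ F (K ω) h b}}
    | Sum.inr (Sum.inl y) => {ω | (ε (Sum.inr (Sum.inl y)) : ℝ≥0∞)⁻¹ * τ ≤ pi0 {b | y ∈ Err ω b}}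
    | Sum.inr (Sum.inr (y, k, r)) => {ω | ∃ h, Trif (K ω) h y k r (l y k r)}
  have hbad : ∀ i, Q (bad i) ≤ ε i := by
    rintro (y | y | ⟨y, k, r⟩)
    · have hm : ∀ h, Measurable fun ω => pi0 {b | y ∈ F (K ω) h b} := fun h =>
        measurable_measure_prodMk_left (ν := pi0) (ms_FF hK h y)
      refine markov Q (Measurable.tsum hm) (B := M) ?_ (by simp)
        (ENNReal.add_ne_top.2 ⟨ENNReal.div_ne_top hM (hε0 _), ENNReal.one_ne_top⟩) ?_
      · rw [lintegral_tsum fun h => (hm h).aemeasurable]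
        refine le_trans ?_ hMK
        rw [← (Equiv.mulLeft y⁻¹).tsum_eq fun h => (Q.prod pi0) {p | 1 ∈ F (K p.1) h p.2}]
        refine ENNReal.tsum_le_tsum fun h => ?_
        exact (Measure.prod_apply (ms_FF hK h y)).symm.le.trans (move_F hQ hE h y)
      · rw [add_mul, ENNReal.div_mul_cancel (hε0 _) ENNReal.coe_ne_top]
        exact le_self_add
    · refine markov Q (measurable_measure_prodMk_left (ν := pi0) (hErr y)) (B := τ) ?_
        (mul_ne_zero (ENNReal.inv_ne_zero.2 ENNReal.coe_ne_top) hτ0)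
        (ENNReal.mul_ne_top (ENNReal.inv_ne_top.2 (hε0 _)) hτt) ?_
      · exact (Measure.prod_apply (hErr y)).symm.le.trans ((move_one hQ hE' y).trans hτ)
      · rw [mul_right_comm, ENNReal.inv_mul_cancel (hε0 _) ENNReal.coe_ne_top, one_mul]
    · have h1 := trif_prob hc hQ hK hE hMK y k r (l y k r)
      have h2 := hl y k r
      have h3 : (l y k r : ℝ≥0∞) ≠ 0 := (zero_le.trans_lt h2).ne'
      rw [ENNReal.div_lt_iff (Or.inl (hε0 _)) (Or.inl ENNReal.coe_ne_top)] at h2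
      exact (ENNReal.mul_le_mul_iff_right h3 (ENNReal.natCast_ne_top _)).1 (h1.trans h2.le)
  have hlt : Q (⋃ i, bad i) < Q {ω | c / 2 ≤ pi0 {b | 1 ∈ K ω b}} :=
    ((measure_iUnion_le _).trans (ENNReal.tsum_le_tsum hbad)).trans_lt
      (hsum.trans_le (half_le (hK 1) hcK))
  obtain ⟨ω, hω, hω'⟩ := not_subset.1 fun hs => hlt.not_ge (measure_mono hs)
  rw [mem_iUnion, not_exists] at hω'
  exact ⟨ω, hω, fun y => (not_le.1 (hω' (Sum.inl y))).le,
    fun y => (not_le.1 (hω' (Sum.inr (Sum.inl y)))).le,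
    fun y k r h ht => hω' (Sum.inr (Sum.inr (y, k, r))) ⟨h, ht⟩⟩

end Pool.Agent.MP_887f27_pr.H16
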